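import Pool.Agent.H97.NT.B

/-!
# Project NT, module D: doubles
-/

set_option autoImplicit false

namespace Pool.Agent.H35.NT

open Monoid

theorem dbl {D B : Type} [Group D] [Group B] (ρ δ : D →* B) (hρ : Function.Injective ρ)
    (hδ : Function.Injective δ) (mρ : Maln ρ.range) (mδ : Maln δ.range) :
    ∃ (M : Type) (_ : Group M) (r d : B →* M), Function.Injective r ∧ Function.Injective d ∧
      Maln r.range ∧ Maln d.range ∧ (∀ z, r (ρ z) = d (δ z)) ∧
      (∀ x b, d x = r b → ∃ z, x = δ z ∧ b = ρ z) ∧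
      (∀ x y h h', x ∉ δ.range → y ∉ δ.range → (d x)⁻¹ * r h * d y = r h' →
        ∃ w v, h = ρ w ∧ h' = ρ v ∧ x⁻¹ * δ w * y = δ v) ∧
      (∀ (V : Type) (_ : Group V) (gr gd : B →* V), (∀ z, gr (ρ z) = gd (δ z)) →
        ∃ ν : M →* V, (∀ b, ν (r b) = gr b) ∧ ∀ b, ν (d b) = gd b) := by
  classical
  let φ : ∀ _ : Bool, D →* B := fun o => if o then δ else ρ
  have φt : φ true = δ := rfl
  have φf : φ false = ρ := rfl
  have hφ : ∀ o, Function.Injective (φ o) := by
    rintro (_ | _)
    · exact hρ
    · exact hδ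
  have mφ : ∀ o, Maln (φ o).range := by
    rintro (_ | _)
    · exact mρ
    · exact mδ
  have hn : ∀ a, PushoutI.of (φ := φ) false (ρ a) = PushoutI.base φ a := fun a =>
    PushoutI.of_apply_eq_base φ false a
  have hs : ∀ a, PushoutI.of (φ := φ) true (δ a) = PushoutI.base φ a := fun a =>
    PushoutI.of_apply_eq_base φ true a
  have hmeet : ∀ x b, PushoutI.of (φ := φ) true x = PushoutI.of (φ := φ) false b →
      ∃ z, x = δ z ∧ b = ρ z := fun x b e => of_eq_of hφ (i := true) (k := false) (by simp) e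
  refine ⟨PushoutI φ, inferInstance, PushoutI.of (φ := φ) false, PushoutI.of (φ := φ) true,
    PushoutI.of_injective hφ false, PushoutI.of_injective hφ true,
    maln_range_of hφ false fun i _ => mφ i, maln_range_of hφ true fun i _ => mφ i,
    fun z => (hn z).trans (hs z).symm, hmeet, ?_, ?_⟩
  · intro x y h h' hx hy e
    by_cases hh : h ∈ ρ.range
    · obtain ⟨w, rfl⟩ := hh
      have e2 : PushoutI.of (φ := φ) true (x⁻¹ * δ w * y) = PushoutI.of (φ := φ) false h' := by
        rw [map_mul, map_mul, map_inv, hs, ← hn]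
        exact e
      obtain ⟨z, h1, h2⟩ := hmeet _ _ e2
      exact ⟨w, z, rfl, h2, h1⟩
    · exfalso
      have hred : Red φ [⟨true, x⁻¹⟩, ⟨false, h⟩, ⟨true, y⟩] := by
        refine ⟨?_, ?_⟩
        · intro s hs'
          simp only [List.mem_cons, List.not_mem_nil, or_false] at hs'
          rcases hs' with rfl | rfl | rfl
          · rintro ⟨z, hz⟩
            exact hx ⟨z⁻¹, by rw [map_inv]; exact inv_eq_iff_eq_inv.mpr hz⟩
          · exact hh
          · exact hy
        · simp [List.isChain_cons]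
      refine red_not_of hφ hred (by simp) false ⟨h', ?_⟩
      rw [← e]
      simp [lp, mul_assoc]
  · intro V _ gr gd hg
    let ff : ∀ _ : Bool, B →* V := fun o => if o then gd else gr
    refine ⟨PushoutI.lift ff (gr.comp ρ) ?_, ?_, ?_⟩
    · rintro (_ | _)
      · rfl
      · ext a
        exact (hg a).symm
    · intro h
      exact PushoutI.lift_of (φ := φ) (i := false) ff _ _ h
    · intro h
      exact PushoutI.lift_of (φ := φ) (i := true) ff _ _ h

end Pool.Agent.H35.NT
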