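import Pool.Agent.H97.NT.B

/-!
# Project NT, module E: the B-step
-/

set_option autoImplicit false

namespace Pool.Agent.H35.NT

open Monoid

theorem bstep {A H : Type} [Group A] [Group H] {J : Type} [Nonempty J] (ι : A →* H)
    (α : J → A →* H) (hι : Function.Injective ι) (hα : ∀ j, Function.Injective (α j))
    (mι : Maln ι.range) (mα : ∀ j, Maln (α j).range) :
    ∃ (B : Type) (_ : Group B) (κ : H →* B) (κ' : J → H →* B), Function.Injective κ ∧
      (∀ j, Function.Injective (κ' j)) ∧ (∀ j a, κ (ι a) = κ' j (α j a)) ∧ Maln κ.range ∧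
      (∀ j, Maln (κ' j).range) ∧ Maln (κ.comp ι).range ∧
      (∀ j h h', κ h = κ' j h' → ∃ a, h = ι a ∧ h' = α j a) ∧
      (∀ j j', j ≠ j' → ∀ h h', κ' j h = κ' j' h' → ∃ a, h = α j a ∧ h' = α j' a) ∧
      (∀ (V : Type) (_ : Group V) (g : H →* V) (g' : J → H →* V),
        (∀ j a, g (ι a) = g' j (α j a)) →
        ∃ ν : B →* V, (∀ h, ν (κ h) = g h) ∧ ∀ j h, ν (κ' j h) = g' j h) := by
  classical
  let φ : ∀ _ : Option J, A →* H := fun o => o.elim ι α
  have hφ : ∀ o, Function.Injective (φ o) := by
    rintro (_ | j)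
    · exact hι
    · exact hα j
  have mφ : ∀ o, Maln (φ o).range := by
    rintro (_ | j)
    · exact mι
    · exact mα j
  have hn : ∀ a, PushoutI.of (φ := φ) none (ι a) = PushoutI.base φ a := fun a =>
    PushoutI.of_apply_eq_base φ none a
  have hs : ∀ j a, PushoutI.of (φ := φ) (some j) (α j a) = PushoutI.base φ a := fun j a =>
    PushoutI.of_apply_eq_base φ (some j) a
  refine ⟨PushoutI φ, inferInstance, PushoutI.of (φ := φ) none,
    fun j => PushoutI.of (φ := φ) (some j), PushoutI.of_injective hφ none,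
    fun j => PushoutI.of_injective hφ (some j), ?_, ?_, ?_, ?_, ?_, ?_, ?_⟩
  · intro j a
    rw [hn, hs]
  · exact maln_range_of hφ none fun i _ => mφ i
  · intro j
    exact maln_range_of hφ (some j) fun i _ => mφ i
  · have h1 : ((PushoutI.of (φ := φ) none).comp ι).range = (PushoutI.base φ).range := by
      rw [← PushoutI.of_comp_eq_base (φ := φ) none]
      rfl
    rw [h1]
    have : Nonempty (Option J) := ⟨none⟩
    exact maln_range_base hφ mφ
  · intro j h h' e
    exact of_eq_of hφ (i := none) (k := some j) (by simp) e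
  · intro j j' hj h h' e
    exact of_eq_of hφ (i := some j) (k := some j') (by simpa using hj) e
  · intro V _ g g' hg
    obtain ⟨j0⟩ := (inferInstance : Nonempty J)
    let ff : ∀ o : Option J, H →* V := fun o => o.elim g g'
    refine ⟨PushoutI.lift ff (g.comp ι) ?_, ?_, ?_⟩
    · rintro (_ | j)
      · rfl
      · ext a
        exact (hg j a).symm
    · intro h
      exact PushoutI.lift_of _ _ _ _
    · intro j h
      exact PushoutI.lift_of (φ := φ) (i := some j) ff _ _ h

end Pool.Agent.H35.NT
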