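import Pool.Agent.H97.NT.B
import Pool.Agent.H35.NT.C

/-!
# Project NT, module F: the F-step
-/

set_option autoImplicit false

namespace Pool.Agent.H35.NT

open Monoid

section aux

variable {I : Type} {G : I → Type} [∀ i, Group (G i)] {K : Type} [Group K]
  {φ : ∀ i, K →* G i}

theorem F_lp_append (l m : List (Σ i, G i)) : lp φ (l ++ m) = lp φ l * lp φ m := by
  simp [lp]

/-- every element is a product of syllables -/
theorem F_exists_lp (hφ : ∀ i, Function.Injective (φ i)) (k : I) (g : PushoutI φ) :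
    ∃ m : List (Σ i, G i), g = lp φ m := by
  obtain ⟨a, l, -, -, h⟩ := exists_red hφ k g
  refine ⟨⟨k, a⟩ :: l, ?_⟩
  rw [h]
  simp [lp]

variable {X : Type} {i1 i2 i3 : I} {u1 : X → G i1} {u2 : X → G i2} {u3 : X → G i3} {c : K}

theorem F_Psi_inl (b : K) : Psi φ u1 u2 u3 c (Coprod.inl b) = PushoutI.base φ b := by
  simp [Psi]

theorem F_Psi_inr (x : X) : Psi φ u1 u2 u3 c (Coprod.inr (FreeGroup.of x)) =
    PushoutI.base φ c * (PushoutI.of (φ := φ) i1 (u1 x) * PushoutI.of (φ := φ) i2 (u2 x) *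
      PushoutI.of (φ := φ) i3 (u3 x)) ^ 2 := by
  simp [Psi]

/-- if a conjugate of `z` is `Psi e` and the powers of `z` are single syllables, then `e` is
conjugate into the base -/
theorem F_conj (hφ : ∀ i, Function.Injective (φ i)) (hsc : SC φ u1 u2 u3) {j : I}
    (z g : PushoutI φ) (hz : ∀ n : ℕ, ∃ a : G j, z ^ n = PushoutI.of (φ := φ) j a)
    (e : Coprod K (FreeGroup X)) (he : g⁻¹ * z * g = Psi φ u1 u2 u3 c e) :
    ∃ (k : Coprod K (FreeGroup X)) (b : K), e = k * Coprod.inl b * k⁻¹ := by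
  apply Psi_growth φ u1 u2 u3 c hφ hsc e
  obtain ⟨m1, h1⟩ := F_exists_lp hφ i1 g⁻¹
  obtain ⟨m2, h2⟩ := F_exists_lp hφ i1 g
  refine ⟨m1.length + 1 + m2.length, fun n => ?_⟩
  obtain ⟨a, ha⟩ := hz n
  refine ⟨m1 ++ [⟨j, a⟩] ++ m2, by simp; omega, ?_⟩
  rw [← he, F_lp_append, F_lp_append, ← h1, ← h2]
  have h3 : lp φ [⟨j, a⟩] = z ^ n := by simp [lp, ha]
  rw [h3]
  have h4 : g⁻¹ * z * g = g⁻¹ * z * (g⁻¹)⁻¹ := by simp
  rw [h4, conj_pow]
  simp

/-- (EE) -/
theorem F_EE (hφ : ∀ i, Function.Injective (φ i)) (hsc : SC φ u1 u2 u3)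
    (hm : ∀ i, Maln (φ i).range) {b : K} (hb : b ≠ 1) (g : PushoutI φ)
    (h : g⁻¹ * PushoutI.base φ b * g ∈ (Psi φ u1 u2 u3 c).range) :
    g ∈ (Psi φ u1 u2 u3 c).range := by
  have : Nonempty I := ⟨i1⟩
  obtain ⟨e, he⟩ := h
  obtain ⟨k, b', hk⟩ := F_conj (j := i1) hφ hsc (PushoutI.base φ b) g (fun n => ⟨φ i1 (b ^ n), by
    rw [PushoutI.of_apply_eq_base, map_pow]⟩) e he.symm
  have hmb := maln_range_base hφ hm
  have h1 : (g * Psi φ u1 u2 u3 c k)⁻¹ * PushoutI.base φ b * (g * Psi φ u1 u2 u3 c k) =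
      PushoutI.base φ b' := by
    have : Psi φ u1 u2 u3 c e = Psi φ u1 u2 u3 c k * PushoutI.base φ b' *
        (Psi φ u1 u2 u3 c k)⁻¹ := by
      rw [hk, map_mul, map_mul, map_inv, F_Psi_inl]
    rw [this] at he
    have h2 : PushoutI.base φ b' = (Psi φ u1 u2 u3 c k)⁻¹ * (Psi φ u1 u2 u3 c k *
      PushoutI.base φ b' * (Psi φ u1 u2 u3 c k)⁻¹) * Psi φ u1 u2 u3 c k := by group
    rw [h2, he]
    group
  have h2 := hmb (g * Psi φ u1 u2 u3 c k) (PushoutI.base φ b) ⟨b, rfl⟩
    (fun h => hb (PushoutI.base_injective hφ (h.trans (map_one _).symm)))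
    (by rw [h1]; exact ⟨b', rfl⟩)
  obtain ⟨b'', hb''⟩ := h2
  refine ⟨Coprod.inl b'' * k⁻¹, ?_⟩
  rw [map_mul, map_inv, F_Psi_inl, hb'']
  group

end aux

theorem fstep {B : Type} [Group B] {I : Type} (M : Bool → I → Type) [∀ s i, Group (M s i)]
    (r d : ∀ s i, B →* M s i) (D : Subgroup B) (c : B) (i1 i2 i3 : I) (h12 : i1 ≠ i2)
    (h23 : i2 ≠ i3) (h13 : i1 ≠ i3)
    (hr : ∀ s i, Function.Injective (r s i)) (hd : ∀ s i, Function.Injective (d s i))
    (mr : ∀ s i, Maln (r s i).range) (md : ∀ s i, Maln (d s i).range)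
    (n1 : ∀ s x, x ∉ D → d s i1 x ∉ (r s i1).range)
    (n2 : ∀ s x, x ∉ D → d s i2 x ∉ (r s i2).range)
    (n3 : ∀ s x, x ∉ D → d s i3 x ∉ (r s i3).range)
    (left : ∀ s x y, x ∉ D → y ∉ D → ∀ h h1 h2 h3 : B,
      (d s i1 x)⁻¹ * r s i1 h * d s i1 y = r s i1 h1 →
      (d s i2 x)⁻¹ * r s i2 h1 * d s i2 y = r s i2 h2 →
      (d s i3 x)⁻¹ * r s i3 h2 * d s i3 y = r s i3 h3 → x = y ∧ h = 1)
    (right : ∀ s x y, x ∉ D → y ∉ D → ∀ h h1 h2 h3 : B,
      d s i3 x * r s i3 h * (d s i3 y)⁻¹ = r s i3 h1 →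
      d s i2 x * r s i2 h1 * (d s i2 y)⁻¹ = r s i2 h2 →
      d s i1 x * r s i1 h2 * (d s i1 y)⁻¹ = r s i1 h3 → x = y ∧ h = 1) :
    ∃ (H : Type) (_ : Group H) (ι : B →* H) (f : ∀ s i, M s i →* H),
      Function.Injective ι ∧ (∀ s i, Function.Injective (f s i)) ∧
      (∀ s i b, f s i (r s i b) = ι b) ∧ Maln ι.range ∧
      (∀ s i, Maln ((f s i).comp (d s i)).range) ∧
      (∀ s i i', i ≠ i' → ∀ a a', f s i a = f s i' a' → ∃ b, a = r s i b ∧ a' = r s i' b) ∧
      (∀ x, x ∉ D →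
        (f true i1 (d true i1 x) * f true i2 (d true i2 x) * f true i3 (d true i3 x)) ^ 2 =
        ι c * (f false i1 (d false i1 x) * f false i2 (d false i2 x) *
          f false i3 (d false i3 x)) ^ 2) ∧
      (∀ (V : Type) (_ : Group V) (g0 : B →* V) (g : ∀ s i, M s i →* V),
        (∀ s i b, g s i (r s i b) = g0 b) →
        (∀ x, x ∉ D →
          (g true i1 (d true i1 x) * g true i2 (d true i2 x) * g true i3 (d true i3 x)) ^ 2 =
          g0 c * (g false i1 (d false i1 x) * g false i2 (d false i2 x) *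
            g false i3 (d false i3 x)) ^ 2) →
        ∃ ν : H →* V, (∀ s i a, ν (f s i a) = g s i a) ∧ ∀ b, ν (ι b) = g0 b) := by
  classical
  have : Nonempty I := ⟨i1⟩
  let X : Type := {x : B // x ∉ D}
  let P : Bool → Type := fun s => PushoutI (r s)
  let cc : Bool → B := fun s => if s then 1 else c
  let Ψ : ∀ s, Coprod B (FreeGroup X) →* P s := fun s =>
    Psi (r s) (fun x : X => d s i1 x.1) (fun x : X => d s i2 x.1) (fun x : X => d s i3 x.1) (cc s)
  have hsc : ∀ s, SC (r s) (fun x : X => d s i1 x.1) (fun x : X => d s i2 x.1)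
      (fun x : X => d s i3 x.1) := fun s =>
    { h12 := h12
      h23 := h23
      h13 := h13
      n1 := fun x => n1 s x.1 x.2
      n2 := fun x => n2 s x.1 x.2
      n3 := fun x => n3 s x.1 x.2
      left := fun x y h h1 h2 h3 e1 e2 e3 => by
        obtain ⟨a, b⟩ := left s x.1 y.1 x.2 y.2 h h1 h2 h3 e1 e2 e3
        exact ⟨Subtype.ext a, b⟩
      right := fun x y h h1 h2 h3 e1 e2 e3 => by
        obtain ⟨a, b⟩ := right s x.1 y.1 x.2 y.2 h h1 h2 h3 e1 e2 e3
        exact ⟨Subtype.ext a, b⟩ }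
  have hΨ : ∀ s, Function.Injective (Ψ s) := fun s => Psi_injective _ _ _ _ _ (hr s) (hsc s)
  have hΨl : ∀ s b, Ψ s (Coprod.inl b) = PushoutI.base (r s) b := fun s b => F_Psi_inl b
  have hEE : ∀ s (b : B), b ≠ 1 → ∀ g : P s, g⁻¹ * PushoutI.base (r s) b * g ∈ (Ψ s).range →
      g ∈ (Ψ s).range := fun s b hb g h => F_EE (hr s) (hsc s) (mr s) hb g h
  -- the key step for both malnormality statements
  have key : ∀ (s : Bool) (j : I) (z : P s), z ≠ 1 →
      (∀ n : ℕ, ∃ a : M s j, z ^ n = PushoutI.of (φ := r s) j a) →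
      ∀ (g : P s) (e : Coprod B (FreeGroup X)), g⁻¹ * z * g = Ψ s e →
      ∀ i, i ≠ s → ∀ t : P i, t⁻¹ * Ψ i e * t ∈ (Ψ i).range → t ∈ (Ψ i).range := by
    intro s j z hz1 hz g e he i _ t ht
    obtain ⟨k, b, hk⟩ := F_conj (hr s) (hsc s) z g hz e he
    have hb : b ≠ 1 := by
      rintro rfl
      apply hz1
      have he1 : e = 1 := by rw [hk]; simp
      rw [he1, map_one] at he
      have : z = g * (g⁻¹ * z * g) * g⁻¹ := by group
      rw [this, he]
      simp
    have h1 : ((Ψ i k)⁻¹ * t)⁻¹ * PushoutI.base (r i) b * ((Ψ i k)⁻¹ * t) ∈ (Ψ i).range := by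
      have : ((Ψ i k)⁻¹ * t)⁻¹ * PushoutI.base (r i) b * ((Ψ i k)⁻¹ * t) = t⁻¹ * Ψ i e * t := by
        rw [hk, map_mul, map_mul, map_inv, hΨl]
        group
      rw [this]
      exact ht
    obtain ⟨e', he'⟩ := hEE i b hb _ h1
    exact ⟨k * e', by rw [map_mul, he']; group⟩
  have hbase : ∀ b : B, b ≠ 1 → ∀ s, PushoutI.base (r s) b ≠ 1 := fun b hb s h =>
    hb (PushoutI.base_injective (hr s) (h.trans (map_one _).symm))
  refine ⟨PushoutI Ψ, inferInstance, (PushoutI.base Ψ).comp Coprod.inl,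
    fun s i => (PushoutI.of (φ := Ψ) s).comp (PushoutI.of (φ := r s) i), ?_, ?_, ?_, ?_, ?_, ?_,
    ?_, ?_⟩
  · have : Function.Injective (PushoutI.base Ψ) := PushoutI.base_injective hΨ
    exact this.comp (Coprod.inl_injective)
  · intro s i
    exact (PushoutI.of_injective hΨ s).comp (PushoutI.of_injective (hr s) i)
  · intro s i b
    simp only [MonoidHom.comp_apply]
    rw [PushoutI.of_apply_eq_base, ← hΨl, PushoutI.of_apply_eq_base]
  · have hC : Maln (PushoutI.base (r true)).range := maln_range_base (hr true) (mr true)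
    have h1 := maln_of hΨ true (PushoutI.base (r true)).range hC (by
      rintro z ⟨b, rfl⟩ hz g e he i hi t ht
      exact key true i1 _ hz (fun n => ⟨r true i1 (b ^ n), by
        rw [PushoutI.of_apply_eq_base, map_pow]⟩) g e he i hi t ht)
    have h2 : ((PushoutI.base Ψ).comp Coprod.inl).range =
        (PushoutI.base (r true)).range.map (PushoutI.of (φ := Ψ) true) := by
      ext y
      constructor
      · rintro ⟨b, rfl⟩
        refine ⟨PushoutI.base (r true) b, ⟨b, rfl⟩, ?_⟩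
        rw [← hΨl, PushoutI.of_apply_eq_base]
        rfl
      · rintro ⟨_, ⟨b, rfl⟩, rfl⟩
        refine ⟨b, ?_⟩
        rw [← hΨl, PushoutI.of_apply_eq_base]
        rfl
    rw [h2]
    exact h1
  · intro s i
    have hC : Maln ((d s i).range.map (PushoutI.of (φ := r s) i)) :=
      maln_of' (hr s) i _ (md s i) (fun i' _ => mr s i')
    have h1 := maln_of hΨ s _ hC (by
      rintro z ⟨_, ⟨b, rfl⟩, rfl⟩ hz g e he i' hi' t ht
      exact key s i _ hz (fun n => ⟨d s i (b ^ n), by rw [map_pow, map_pow]⟩) g e he i' hi' t ht)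
    have h2 : (((PushoutI.of (φ := Ψ) s).comp (PushoutI.of (φ := r s) i)).comp (d s i)).range =
        ((d s i).range.map (PushoutI.of (φ := r s) i)).map (PushoutI.of (φ := Ψ) s) := by
      rw [MonoidHom.range_eq_map, ← Subgroup.map_map, ← Subgroup.map_map, ← MonoidHom.range_eq_map]
    rw [h2]
    exact h1
  · intro s i i' hii' a a' h
    have h1 : PushoutI.of (φ := r s) i a = PushoutI.of (φ := r s) i' a' :=
      PushoutI.of_injective hΨ s h
    exact of_eq_of (hr s) hii' h1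
  · intro x hx
    simp only [MonoidHom.comp_apply]
    have e1 : PushoutI.of (φ := Ψ) true (Ψ true (Coprod.inr (FreeGroup.of (⟨x, hx⟩ : X)))) =
        PushoutI.of (φ := Ψ) false (Ψ false (Coprod.inr (FreeGroup.of (⟨x, hx⟩ : X)))) := by
      rw [PushoutI.of_apply_eq_base, PushoutI.of_apply_eq_base]
    have e2 : ∀ s, Ψ s (Coprod.inr (FreeGroup.of (⟨x, hx⟩ : X))) =
        PushoutI.base (r s) (cc s) * (PushoutI.of (φ := r s) i1 (d s i1 x) *
          PushoutI.of (φ := r s) i2 (d s i2 x) * PushoutI.of (φ := r s) i3 (d s i3 x)) ^ 2 :=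
      fun s => F_Psi_inr _
    rw [e2, e2] at e1
    have e3 : PushoutI.base (r true) (cc true) = 1 := by simp [cc]
    have e4 : PushoutI.base (r false) (cc false) = PushoutI.base (r false) c := by simp [cc]
    rw [e3, e4, one_mul, ← hΨl false c, map_mul, PushoutI.of_apply_eq_base] at e1
    simpa only [map_mul, map_pow] using e1
  · intro V _ g0 g hg hlaw
    let ν0 : ∀ s, P s →* V := fun s => PushoutI.lift (g s) g0 (fun i => by
      ext b
      exact hg s i b)
    have hν0 : ∀ s i a, ν0 s (PushoutI.of (φ := r s) i a) = g s i a := fun s i a =>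
      PushoutI.lift_of _ _ _ _
    have hν0b : ∀ s b, ν0 s (PushoutI.base (r s) b) = g0 b := fun s b =>
      PushoutI.lift_base _ _ _ _
    let kk : Coprod B (FreeGroup X) →* V := (ν0 true).comp (Ψ true)
    have hk : ∀ s, (ν0 s).comp (Ψ s) = kk := by
      intro s
      cases s
      · apply Coprod.hom_ext
        · ext b
          simp only [MonoidHom.comp_apply, kk]
          rw [hΨl, hΨl, hν0b, hν0b]
        · apply FreeGroup.ext_hom
          intro x
          simp only [MonoidHom.comp_apply, kk]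
          have e2 : ∀ s, Ψ s (Coprod.inr (FreeGroup.of x)) =
              PushoutI.base (r s) (cc s) * (PushoutI.of (φ := r s) i1 (d s i1 x.1) *
                PushoutI.of (φ := r s) i2 (d s i2 x.1) *
                PushoutI.of (φ := r s) i3 (d s i3 x.1)) ^ 2 := fun s => F_Psi_inr _
          rw [e2, e2]
          simp only [map_mul, map_pow, hν0, hν0b]
          have := hlaw x.1 x.2
          simp only [cc]
          simpa using this.symm
      · rfl
    refine ⟨PushoutI.lift ν0 kk hk, ?_, ?_⟩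
    · intro s i a
      simp only [MonoidHom.comp_apply]
      rw [PushoutI.lift_of, hν0]
    · intro b
      simp only [MonoidHom.comp_apply]
      rw [PushoutI.lift_base]
      simp only [kk, MonoidHom.comp_apply]
      rw [hΨl, hν0b]

end Pool.Agent.H35.NT
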